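import Mathlib

/-! # A vertex order with few feedback arcs, and labels -/

set_option autoImplicit false

namespace Pool.Agent.Q251.DA

open Finset

variable {V : Type} [Fintype V] [DecidableEq V]

/-- Out-neighbours which come later. -/
def later (N : V → Finset V) (pos : V → ℕ) (v : V) : Finset V := (N v).filter fun w => pos v < pos w

/-- Out-neighbours which come earlier. -/
def earlier (N : V → Finset V) (pos : V → ℕ) (v : V) : Finset V :=
  (N v).filter fun w => pos w < pos v

/-- Earlier in-neighbours. -/
def inn (N : V → Finset V) (pos : V → ℕ) (v : V) : Finset V :=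
  univ.filter fun x => v ∈ N x ∧ pos x < pos v

/-- There is an order such that every vertex has at most as many earlier in-neighbours as earlier
out-neighbours. -/
theorem exists_order (N : V → Finset V) (hN : ∀ v, v ∉ N v) :
    ∃ pos : V → ℕ, Function.Injective pos ∧ ∀ v, (inn N pos v).card ≤ (earlier N pos v).card := by
  classical
  let cost : (V → ℕ) → ℕ := fun pos => ∑ v, (later N pos v).card
  obtain ⟨pos0, hpos0⟩ : ∃ pos : V → ℕ, Function.Injective pos :=
    ⟨fun v => (Fintype.equivFin V v : ℕ), fun a b h =>
      (Fintype.equivFin V).injective (Fin.ext h)⟩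
  have hex : ∃ n, ∃ pos : V → ℕ, Function.Injective pos ∧ cost pos = n := ⟨_, pos0, hpos0, rfl⟩
  obtain ⟨pos, hinj, hcost⟩ := Nat.find_spec hex
  have hmin : ∀ pos' : V → ℕ, Function.Injective pos' → cost pos ≤ cost pos' := by
    intro pos' h'
    rw [hcost]
    exact Nat.find_min' hex ⟨pos', h', rfl⟩
  refine ⟨pos, hinj, fun v => ?_⟩
  let pos' : V → ℕ := fun x => if x = v then 0 else pos x + 1
  have hpv : pos' v = 0 := if_pos rfl
  have hpx : ∀ x, x ≠ v → pos' x = pos x + 1 := fun x hx => if_neg hx
  have hinj' : Function.Injective pos' := by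
    intro a b hab
    by_cases ha : a = v
    · by_cases hb : b = v
      · rw [ha, hb]
      · rw [ha, hpv, hpx b hb] at hab
        omega
    · by_cases hb : b = v
      · rw [hb, hpv, hpx a ha] at hab
        omega
      · rw [hpx a ha, hpx b hb] at hab
        exact hinj (by omega)
  have h1 := hmin pos' hinj'
  -- the change of the cost
  have h2 : ∀ x, x ≠ v → (later N pos' x).card + (if v ∈ N x ∧ pos x < pos v then 1 else 0) =
      (later N pos x).card := by
    intro x hx
    have h3 : later N pos' x = (later N pos x).erase v := by
      ext w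
      unfold later
      rw [mem_erase, mem_filter, mem_filter]
      by_cases hw : w = v
      · subst hw
        rw [hpv]
        constructor
        · rintro ⟨-, h⟩
          omega
        · rintro ⟨h, -⟩
          exact absurd rfl h
      · rw [hpx w hw, hpx x hx]
        constructor
        · rintro ⟨h, h'⟩
          exact ⟨hw, h, by omega⟩
        · rintro ⟨-, h, h'⟩
          exact ⟨h, by omega⟩
    rw [h3]
    by_cases h4 : v ∈ later N pos x
    · have h5 := mem_filter.1 h4
      rw [if_pos h5, card_erase_add_one h4]
    · have h5 : ¬ (v ∈ N x ∧ pos x < pos v) := fun h => h4 (mem_filter.2 h)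
      rw [if_neg h5, erase_eq_of_notMem h4, add_zero]
  have h3 : (later N pos' v).card = (N v).card := by
    congr 1
    unfold later
    rw [filter_eq_self]
    intro w hw
    have : w ≠ v := fun h => hN v (h ▸ hw)
    rw [hpv, hpx w this]
    omega
  have h4 : (later N pos v).card + (earlier N pos v).card = (N v).card := by
    rw [← Finset.card_filter_add_card_filter_not (s := N v) (fun w => pos v < pos w)]
    unfold later earlier
    congr 2
    refine filter_congr fun w hw => ?_
    have : pos w ≠ pos v := fun h => hN v (hinj h ▸ hw)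
    omega
  have h5 : (inn N pos v).card = ∑ x ∈ univ.erase v, (if v ∈ N x ∧ pos x < pos v then 1 else 0) := by
    unfold inn
    rw [card_filter, ← Finset.add_sum_erase univ _ (mem_univ v), if_neg (fun h => hN v h.1),
      zero_add]
  have h6 : cost pos' = (later N pos' v).card + ∑ x ∈ univ.erase v, (later N pos' x).card :=
    (Finset.add_sum_erase univ _ (mem_univ v)).symm
  have h7 : cost pos = (later N pos v).card + ∑ x ∈ univ.erase v, (later N pos x).card :=
    (Finset.add_sum_erase univ _ (mem_univ v)).symm
  have h8 : ∑ x ∈ univ.erase v, (later N pos' x).card + (inn N pos v).card =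
      ∑ x ∈ univ.erase v, (later N pos x).card := by
    rw [h5, ← sum_add_distrib]
    exact sum_congr rfl fun x hx => h2 x (mem_erase.1 hx).1
  omega

/-- Greedy colouring. -/
theorem greedy (conf : V → V → Prop) [DecidableRel conf] (hs : ∀ x y, conf x y → conf y x)
    (Λ : Type) [Fintype Λ] [DecidableEq Λ]
    (hc : ∀ x, (univ.filter fun y => conf x y).card < Fintype.card Λ) :
    ∃ lab : V → Λ, ∀ x y, conf x y → x ≠ y → lab x ≠ lab y := by
  classical
  have key : ∀ S : Finset V, ∃ lab : V → Λ, ∀ x ∈ S, ∀ y ∈ S, conf x y → x ≠ y →
      lab x ≠ lab y := by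
    intro S
    induction S using Finset.induction_on with
    | empty =>
      rcases isEmpty_or_nonempty V with hV | ⟨⟨v⟩⟩
      · exact ⟨fun v => (hV.false v).elim, by simp⟩
      · have : 0 < Fintype.card Λ := by
          have := hc v
          omega
        have : Nonempty Λ := Fintype.card_pos_iff.1 this
        exact ⟨fun _ => Classical.arbitrary Λ, by simp⟩
    | insert v S hv ih =>
      obtain ⟨lab, hlab⟩ := ih
      obtain ⟨c, hc'⟩ : ∃ c : Λ, c ∉ (univ.filter fun y => conf v y).image lab := by
        by_contra hcon
        push Not at hcon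
        have h1 : (univ.filter fun y => conf v y).image lab = univ :=
          eq_univ_iff_forall.2 hcon
        have h2 := card_image_le (s := univ.filter fun y => conf v y) (f := lab)
        rw [h1, card_univ] at h2
        have := hc v
        omega
      have hcv : ∀ y, conf v y → lab y ≠ c := fun y hy h =>
        hc' (mem_image.2 ⟨y, mem_filter.2 ⟨mem_univ _, hy⟩, h⟩)
      refine ⟨Function.update lab v c, fun x hx y hy hxy hne => ?_⟩
      by_cases hxv : x = v
      · subst hxv
        rw [Function.update_self, Function.update_of_ne (Ne.symm hne)]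
        exact fun h => hcv y hxy h.symm
      · by_cases hyv : y = v
        · subst hyv
          rw [Function.update_self, Function.update_of_ne hne]
          exact hcv x (hs _ _ hxy)
        · rw [Function.update_of_ne hxv, Function.update_of_ne hyv]
          exact hlab x ((mem_insert.1 hx).resolve_left hxv) y ((mem_insert.1 hy).resolve_left hyv)
            hxy hne
  obtain ⟨lab, hlab⟩ := key univ
  exact ⟨lab, fun x y => hlab x (mem_univ _) y (mem_univ _)⟩

/-- Labels which are distinct on the later out-neighbours of every vertex. -/
theorem exists_labels (N : V → Finset V) (pos : V → ℕ) (k : ℕ) (hN : ∀ v, (N v).card ≤ k)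
    (hNv : ∀ v, v ∉ N v) (hpos : Function.Injective pos)
    (hin : ∀ v, (inn N pos v).card ≤ (earlier N pos v).card) (Λ : Type) [Fintype Λ]
    [DecidableEq Λ] (hΛ : k ^ 2 + k < Fintype.card Λ) :
    ∃ lab : V → Λ, ∀ v, (∀ w ∈ later N pos v, lab w ≠ lab v) ∧
      ∀ w ∈ later N pos v, ∀ w' ∈ later N pos v, w ≠ w' → lab w ≠ lab w' := by
  classical
  have hsplit : ∀ v, (later N pos v).card + (earlier N pos v).card ≤ k := by
    intro v
    refine le_trans (le_of_eq ?_) (hN v)
    rw [← Finset.card_filter_add_card_filter_not (s := N v) (fun w => pos v < pos w)]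
    unfold later earlier
    congr 2
    refine filter_congr fun w hw => ?_
    have : pos w ≠ pos v := fun h => hNv v (hpos h ▸ hw)
    omega
  let conf : V → V → Prop := fun x y => y ∈ later N pos x ∨ x ∈ later N pos y ∨
    ∃ v, x ∈ later N pos v ∧ y ∈ later N pos v
  have hs : ∀ x y, conf x y → conf y x := by
    rintro x y (h | h | ⟨v, h1, h2⟩)
    · exact Or.inr (Or.inl h)
    · exact Or.inl h
    · exact Or.inr (Or.inr ⟨v, h2, h1⟩)
  obtain ⟨lab, hlab⟩ := greedy conf hs Λ (by
    intro x
    refine lt_of_le_of_lt ?_ hΛ
    have hsub : (univ.filter fun y => conf x y) ⊆ (later N pos x ∪ inn N pos x) ∪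
        (inn N pos x).biUnion (later N pos) := by
      intro y hy
      have hy' := (mem_filter.1 hy).2
      rcases hy' with h | h | ⟨v, h1, h2⟩
      · exact mem_union_left _ (mem_union_left _ h)
      · have h' := mem_filter.1 h
        exact mem_union_left _ (mem_union_right _ (mem_filter.2 ⟨mem_univ _, h'.1, h'.2⟩))
      · have h' := mem_filter.1 h1
        exact mem_union_right _ (mem_biUnion.2 ⟨v, mem_filter.2 ⟨mem_univ _, h'.1, h'.2⟩, h2⟩)
    have h1 := card_le_card hsub
    have h2 := card_union_le (later N pos x ∪ inn N pos x) ((inn N pos x).biUnion (later N pos))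
    have h3 := card_union_le (later N pos x) (inn N pos x)
    have h4 : ((inn N pos x).biUnion (later N pos)).card ≤ k * k := by
      refine card_biUnion_le.trans ?_
      refine (sum_le_sum (g := fun _ => k) fun v _ => ?_).trans ?_
      · have := hsplit v
        omega
      · rw [sum_const, smul_eq_mul]
        refine Nat.mul_le_mul_right _ ?_
        have := hin x
        have := hsplit x
        omega
    have h5 := hin x
    have h6 := hsplit x
    rw [sq]
    omega)
  refine ⟨lab, fun v => ⟨fun w hw => ?_, fun w hw w' hw' hne => ?_⟩⟩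
  · refine hlab w v (Or.inr (Or.inl hw)) ?_
    rintro rfl
    exact hNv w (mem_filter.1 hw).1
  · exact hlab w w' (Or.inr (Or.inr ⟨v, hw, hw'⟩)) hne

end Pool.Agent.Q251.DA
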