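import Pool.Agent.Q251.DA.Family
import Pool.Agent.Q251.DA.Order

/-! # Heights and colours of the arcs -/

set_option autoImplicit false

namespace Pool.Agent.Q251.DA

open Finset

variable {V : Type} [Fintype V] [DecidableEq V]

omit [Fintype V] in
/-- Greedy choice of the colours of the arcs to earlier vertices. -/
theorem step {m k b s : ℕ} (hm : m + 1 = 2 * k) (hb : b = s + 1) (hk : 2 * s + 2 ≤ k)
    (h : V → Fin m → ℕ) (R S0 : Finset (Fin m)) (hR : R.card ≤ s) (P : Finset V)
    (hP2 : ∀ w ∈ P, (univ.filter fun c => 2 ≤ h w c).card ≤ b)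
    (hPb : ∀ w ∈ P, (univ.filter fun c => 1 ≤ h w c).card ≤ k) (hPS : P.card + S0.card ≤ k) :
    ∃ f : V → Fin m, (∀ w ∈ P, f w ∉ R ∧ f w ∉ S0 ∧ h w (f w) ≤ 1) ∧
      (∀ w ∈ P, ∀ w' ∈ P, w ≠ w' → f w ≠ f w') ∧
      (P.filter fun w => 1 ≤ h w (f w)).card ≤ P.card + S0.card - (k - b) := by
  classical
  have hm0 : 0 < m := by omega
  induction P using Finset.induction_on with
  | empty => exact ⟨fun _ => ⟨0, hm0⟩, by simp, by simp, by simp⟩
  | insert v P hv ih =>
    rw [card_insert_of_notMem hv] at hPS ⊢
    obtain ⟨f, hf1, hf2, hf3⟩ := ih (fun w hw => hP2 w (mem_insert_of_mem hw))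
      (fun w hw => hPb w (mem_insert_of_mem hw)) (by omega)
    have hfim : (P.image f).card ≤ P.card := card_image_le
    -- the chosen colour
    obtain ⟨c, hcR, hcS, hcP, hc1, hcc⟩ : ∃ c : Fin m, c ∉ R ∧ c ∉ S0 ∧ c ∉ P.image f ∧ h v c ≤ 1 ∧
        (P.card + S0.card < k - b → h v c = 0) := by
      by_cases hcase : P.card + S0.card < k - b
      · have h1 := hPb v (mem_insert_self _ _)
        have h2 : (R ∪ S0 ∪ P.image f ∪ univ.filter (fun c => 1 ≤ h v c)).card < m := by
          have e1 := card_union_le (R ∪ S0 ∪ P.image f) (univ.filter (fun c => 1 ≤ h v c))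
          have e2 := card_union_le (R ∪ S0) (P.image f)
          have e3 := card_union_le R S0
          omega
        obtain ⟨c, hc⟩ : ∃ c, c ∉ R ∪ S0 ∪ P.image f ∪ univ.filter (fun c => 1 ≤ h v c) := by
          by_contra hcon
          push Not at hcon
          rw [eq_univ_iff_forall.2 hcon, card_univ, Fintype.card_fin] at h2
          omega
        simp only [mem_union, not_or] at hc
        obtain ⟨⟨⟨c1, c2⟩, c3⟩, c4⟩ := hc
        have c5 : h v c = 0 := by
          by_contra h0
          exact c4 (mem_filter.2 ⟨mem_univ _, by omega⟩)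
        exact ⟨c, c1, c2, c3, by omega, fun _ => c5⟩
      · have h1 := hP2 v (mem_insert_self _ _)
        have h2 : (R ∪ S0 ∪ P.image f ∪ univ.filter (fun c => 2 ≤ h v c)).card < m := by
          have e1 := card_union_le (R ∪ S0 ∪ P.image f) (univ.filter (fun c => 2 ≤ h v c))
          have e2 := card_union_le (R ∪ S0) (P.image f)
          have e3 := card_union_le R S0
          omega
        obtain ⟨c, hc⟩ : ∃ c, c ∉ R ∪ S0 ∪ P.image f ∪ univ.filter (fun c => 2 ≤ h v c) := by
          by_contra hcon
          push Not at hcon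
          rw [eq_univ_iff_forall.2 hcon, card_univ, Fintype.card_fin] at h2
          omega
        simp only [mem_union, not_or] at hc
        obtain ⟨⟨⟨c1, c2⟩, c3⟩, c4⟩ := hc
        have c5 : h v c ≤ 1 := by
          by_contra h0
          exact c4 (mem_filter.2 ⟨mem_univ _, by omega⟩)
        exact ⟨c, c1, c2, c3, c5, fun h => absurd h hcase⟩
    have hne : ∀ w ∈ P, w ≠ v := fun w hw h => hv (h ▸ hw)
    refine ⟨Function.update f v c, ?_, ?_, ?_⟩
    · intro w hw
      rcases mem_insert.1 hw with rfl | hw
      · rw [Function.update_self]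
        exact ⟨hcR, hcS, hc1⟩
      · rw [Function.update_of_ne (hne w hw)]
        exact hf1 w hw
    · intro w hw w' hw' hww
      rcases mem_insert.1 hw with hwv | hw1
      · rcases mem_insert.1 hw' with hwv' | hw1'
        · exact absurd (hwv.trans hwv'.symm) hww
        · rw [hwv, Function.update_self, Function.update_of_ne (hne w' hw1')]
          exact fun h => hcP (mem_image.2 ⟨w', hw1', h.symm⟩)
      · rcases mem_insert.1 hw' with hwv' | hw1'
        · rw [hwv', Function.update_self, Function.update_of_ne (hne w hw1)]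
          exact fun h => hcP (mem_image.2 ⟨w, hw1, h⟩)
        · rw [Function.update_of_ne (hne w hw1), Function.update_of_ne (hne w' hw1')]
          exact hf2 w hw1 w' hw1' hww
    · have h1 : ((insert v P).filter fun w => 1 ≤ h w (Function.update f v c w)) ⊆
          (P.filter fun w => 1 ≤ h w (f w)) ∪ (if 1 ≤ h v c then {v} else ∅) := by
        intro w hw
        obtain ⟨hw1, hw2⟩ := mem_filter.1 hw
        rcases mem_insert.1 hw1 with rfl | hw1
        · rw [Function.update_self] at hw2
          rw [if_pos hw2]
          exact mem_union_right _ (mem_singleton_self _)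
        · rw [Function.update_of_ne (hne w hw1)] at hw2
          exact mem_union_left _ (mem_filter.2 ⟨hw1, hw2⟩)
      have h2 := card_le_card h1
      have h3 := card_union_le (P.filter fun w => 1 ≤ h w (f w)) (if 1 ≤ h v c then {v} else ∅)
      by_cases h4 : 1 ≤ h v c
      · rw [if_pos h4] at h2 h3
        rw [card_singleton] at h3
        have h5 : ¬ (P.card + S0.card < k - b) := fun h => by
          have := hcc h
          omega
        omega
      · rw [if_neg h4] at h2 h3
        rw [card_empty] at h3
        omega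

/-- The main construction. -/
theorem core {m k s : ℕ} (hm : m + 1 = 2 * k) (hk : 2 * s + 2 ≤ k) (Λ : Type) [Fintype Λ]
    [DecidableEq Λ] (hΛ : k ^ 2 + k < Fintype.card Λ)
    (hnum : 2 * (Fintype.card Λ ^ 2 * m * (k - 1 + s) ^ s) ≤ m ^ s)
    (N : V → Finset V) (hN : ∀ v, (N v).card ≤ k) (hNv : ∀ v, v ∉ N v) :
    ∃ (h : V → Fin m → ℕ) (col : V → V → Fin m), (∀ v c, h v c ≤ 2) ∧
      ∀ v, (∀ w ∈ N v, h w (col v w) < h v (col v w)) ∧
        ∀ w ∈ N v, ∀ w' ∈ N v, w ≠ w' → col v w ≠ col v w' := by
  classical
  have hm0 : 0 < m := by omega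
  obtain ⟨pos, hpos, hin⟩ := exists_order N hNv
  obtain ⟨lab, hlab⟩ := exists_labels N pos k hN hNv hpos hin Λ hΛ
  obtain ⟨R, hRs, hR⟩ := exists_family (Λ := Λ) (m := m) (s := s) k hm0 hnum
  have hsplit : ∀ v, (earlier N pos v).card + (later N pos v).card ≤ k := by
    intro v
    refine le_trans (le_of_eq ?_) (hN v)
    rw [add_comm, ← Finset.card_filter_add_card_filter_not (s := N v) (fun w => pos v < pos w)]
    unfold later earlier
    congr 2
    refine filter_congr fun w hw => ?_
    have : pos w ≠ pos v := fun h => hNv v (hpos h ▸ hw)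
    omega
  have hcases : ∀ v w, w ∈ N v → w ∈ earlier N pos v ∨ w ∈ later N pos v := by
    intro v w hw
    have : pos w ≠ pos v := fun h => hNv v (hpos h ▸ hw)
    rcases lt_or_gt_of_ne this with h | h
    · exact Or.inl (mem_filter.2 ⟨hw, h⟩)
    · exact Or.inr (mem_filter.2 ⟨hw, h⟩)
  -- the colours of the arcs to later vertices
  have hg : ∀ v, ∃ g : V → Fin m, (∀ w ∈ later N pos v, g w ∈ R (lab w) ∧ g w ∉ R (lab v)) ∧
      ∀ w ∈ later N pos v, ∀ w' ∈ later N pos v, w ≠ w' → g w ≠ g w' := by
    intro v
    obtain ⟨f, hf1, hf2⟩ := (Finset.all_card_le_biUnion_card_iff_exists_injective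
      (fun w : {w // w ∈ later N pos v} => R (lab w.1) \ R (lab v))).1 (by
        intro J
        by_contra hcon
        push Not at hcon
        have hinj : Set.InjOn (fun w : {w // w ∈ later N pos v} => lab w.1)
            (J : Set {w // w ∈ later N pos v}) := by
          intro a _ b _ hab
          by_contra hne
          exact (hlab v).2 a.1 a.2 b.1 b.2 (fun h => hne (Subtype.ext h)) hab
        have hcard := card_image_of_injOn hinj
        obtain ⟨l, hl, hl'⟩ := hR (lab v) (J.image fun w => lab w.1)
          (J.biUnion fun w => R (lab w.1) \ R (lab v)) (by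
            intro h
            obtain ⟨w, -, hw⟩ := mem_image.1 h
            exact (hlab v).1 w.1 w.2 hw) (by
            rw [hcard]
            have h1 := card_le_univ J
            rw [Fintype.card_coe] at h1
            have := hsplit v
            omega) (by
            rw [hcard]
            exact hcon)
        obtain ⟨w, hw, rfl⟩ := mem_image.1 hl
        apply hl'
        intro x hx
        by_cases hx' : x ∈ R (lab v)
        · exact mem_union_right _ hx'
        · exact mem_union_left _ (mem_biUnion.2 ⟨w, hw, mem_sdiff.2 ⟨hx, hx'⟩⟩))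
    refine ⟨fun w => if hw : w ∈ later N pos v then f ⟨w, hw⟩ else ⟨0, hm0⟩, ?_, ?_⟩
    · intro w hw
      simp only [dif_pos hw]
      exact mem_sdiff.1 (hf2 ⟨w, hw⟩)
    · intro w hw w' hw' hne
      simp only [dif_pos hw, dif_pos hw']
      intro h
      exact hne (congrArg Subtype.val (hf1 h))
  choose g hg1 hg2 using hg
  -- the construction vertex by vertex
  have key : ∀ n : ℕ, ∃ (h : V → Fin m → ℕ) (col : V → V → Fin m), ∀ v, pos v < n →
      (∀ c ∈ R (lab v), h v c = 0) ∧ (univ.filter fun c => 2 ≤ h v c).card ≤ s + 1 ∧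
      (univ.filter fun c => 1 ≤ h v c).card ≤ k ∧
      (∀ w ∈ earlier N pos v, h w (col v w) < h v (col v w)) ∧
      (∀ w ∈ later N pos v, col v w = g v w ∧ h v (g v w) = 1) ∧
      (∀ w ∈ N v, ∀ w' ∈ N v, w ≠ w' → col v w ≠ col v w') ∧ (∀ c, h v c ≤ 2) := by
    intro n
    induction n with
    | zero => exact ⟨fun _ _ => 0, fun _ _ => ⟨0, hm0⟩, fun v hv => absurd hv (Nat.not_lt_zero _)⟩
    | succ n ih =>
      obtain ⟨h, col, hh⟩ := ih
      by_cases hex : ∃ v, pos v = n
      swap
      · refine ⟨h, col, fun v hv => hh v ?_⟩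
        have : pos v ≠ n := fun h => hex ⟨v, h⟩
        omega
      obtain ⟨v, hv⟩ := hex
      set P := earlier N pos v with hP
      set S0 := (later N pos v).image (g v) with hS0
      have hS0c : S0.card ≤ (later N pos v).card := card_image_le
      have hPS : P.card + S0.card ≤ k := by
        have h1 : P.card + (later N pos v).card ≤ k := hsplit v
        omega
      have hPlt : ∀ w ∈ P, pos w < n := fun w hw => hv ▸ (mem_filter.1 hw).2
      obtain ⟨f, hf1, hf2, hf3⟩ := step hm rfl hk h (R (lab v)) S0 (hRs _) P
        (fun w hw => (hh w (hPlt w hw)).2.1) (fun w hw => (hh w (hPlt w hw)).2.2.1) hPS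
      let hv' : Fin m → ℕ := fun c => if c ∈ S0 then 1 else
        (P.filter fun w => f w = c).sup (fun w => h w c + 1)
      have hv'S : ∀ c ∈ S0, hv' c = 1 := fun c hc => if_pos hc
      have hv'n : ∀ c, c ∉ S0 → hv' c = (P.filter fun w => f w = c).sup (fun w => h w c + 1) :=
        fun c hc => if_neg hc
      have hv'P : ∀ w ∈ P, h w (f w) + 1 ≤ hv' (f w) := by
        intro w hw
        rw [hv'n _ (hf1 w hw).2.1]
        exact Finset.le_sup (f := fun w' => h w' (f w) + 1) (mem_filter.2 ⟨hw, rfl⟩)
      have hv'pos : ∀ c, c ∉ S0 → 1 ≤ hv' c → ∃ w ∈ P, f w = c ∧ hv' c = h w c + 1 := by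
        intro c hc h1
        rw [hv'n c hc] at h1 ⊢
        have hne : (P.filter fun w => f w = c).Nonempty := by
          rw [nonempty_iff_ne_empty]
          intro h0
          rw [h0, sup_empty] at h1
          exact absurd h1 (by simp)
        obtain ⟨w, hw, hw'⟩ := Finset.exists_mem_eq_sup _ hne (fun w => h w c + 1)
        exact ⟨w, (mem_filter.1 hw).1, (mem_filter.1 hw).2, hw'⟩
      have hne : ∀ x, pos x < n → x ≠ v := fun x hx h => by
        rw [h, hv] at hx
        omega
      refine ⟨Function.update h v hv', Function.update col v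
        (fun w => if w ∈ later N pos v then g v w else f w), fun x hx => ?_⟩
      by_cases hxv : x = v
      · subst hxv
        rw [Function.update_self, Function.update_self]
        have hearl : ∀ w ∈ P, w ∉ later N pos x := fun w hw hw' => by
          have h1 := (mem_filter.1 hw).2
          have h2 := (mem_filter.1 hw').2
          omega
        refine ⟨?_, ?_, ?_, ?_, ?_, ?_, ?_⟩
        · intro c hc
          by_contra h0
          have hcS : c ∉ S0 := by
            intro hcS
            obtain ⟨w, hw, rfl⟩ := mem_image.1 hcS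
            exact (hg1 x w hw).2 hc
          obtain ⟨w, hw, hwc, -⟩ := hv'pos c hcS (by omega)
          exact (hf1 w hw).1 (hwc ▸ hc)
        · have hsub : (univ.filter fun c => 2 ≤ hv' c) ⊆
              (P.filter fun w => 1 ≤ h w (f w)).image f := by
            intro c hc
            have hc' := (mem_filter.1 hc).2
            have hcS : c ∉ S0 := fun h => by
              rw [hv'S c h] at hc'
              omega
            obtain ⟨w, hw, hwc, hwv⟩ := hv'pos c hcS (by omega)
            refine mem_image.2 ⟨w, mem_filter.2 ⟨hw, ?_⟩, hwc⟩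
            rw [hwc]
            omega
          have h1 := card_le_card hsub
          have h2 : ((P.filter fun w => 1 ≤ h w (f w)).image f).card ≤ _ := card_image_le
          omega
        · have hsub : (univ.filter fun c => 1 ≤ hv' c) ⊆ S0 ∪ P.image f := by
            intro c hc
            have hc' := (mem_filter.1 hc).2
            by_cases hcS : c ∈ S0
            · exact mem_union_left _ hcS
            · obtain ⟨w, hw, hwc, -⟩ := hv'pos c hcS hc'
              exact mem_union_right _ (mem_image.2 ⟨w, hw, hwc⟩)
          have h1 := card_le_card hsub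
          have h2 := card_union_le S0 (P.image f)
          have h3 : (P.image f).card ≤ P.card := card_image_le
          omega
        · intro w hw
          rw [if_neg (hearl w hw), Function.update_of_ne (hne w (hPlt w hw))]
          have := hv'P w hw
          omega
        · intro w hw
          rw [if_pos hw]
          exact ⟨rfl, hv'S _ (mem_image.2 ⟨w, hw, rfl⟩)⟩
        · intro w hw w' hw' hww
          rcases hcases x w hw with h1 | h1 <;> rcases hcases x w' hw' with h2 | h2
          · simp only [if_neg (hearl w h1), if_neg (hearl w' h2)]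
            exact hf2 w h1 w' h2 hww
          · simp only [if_neg (hearl w h1), if_pos h2]
            exact fun h => (hf1 w h1).2.1 (h ▸ mem_image.2 ⟨w', h2, rfl⟩)
          · simp only [if_pos h1, if_neg (hearl w' h2)]
            exact fun h => (hf1 w' h2).2.1 (h ▸ mem_image.2 ⟨w, h1, rfl⟩)
          · simp only [if_pos h1, if_pos h2]
            exact hg2 x w h1 w' h2 hww
        · intro c
          by_cases hcS : c ∈ S0
          · rw [hv'S c hcS]
            omega
          · by_cases h0 : 1 ≤ hv' c
            · obtain ⟨w, hw, hwc, hwv⟩ := hv'pos c hcS h0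
              have := (hf1 w hw).2.2
              rw [hwc] at this
              omega
            · omega
      · have hxn : pos x < n := by
          have : pos x ≠ n := fun h => hxv (hpos (h.trans hv.symm))
          omega
        obtain ⟨a1, a2, a3, a4, a5, a6, a7⟩ := hh x hxn
        rw [Function.update_of_ne hxv, Function.update_of_ne hxv]
        refine ⟨a1, a2, a3, fun w hw => ?_, a5, a6, a7⟩
        have : w ≠ v := hne w ((mem_filter.1 hw).2.trans hxn)
        rw [Function.update_of_ne this]
        exact a4 w hw
  obtain ⟨h, col, hh⟩ := key (univ.sup pos + 1)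
  have hlt : ∀ v, pos v < univ.sup pos + 1 := fun v =>
    Nat.lt_succ_of_le (Finset.le_sup (f := pos) (mem_univ v))
  refine ⟨h, col, fun v => (hh v (hlt v)).2.2.2.2.2.2, fun v => ⟨fun w hw => ?_, ?_⟩⟩
  · obtain ⟨a1, a2, a3, a4, a5, a6, a7⟩ := hh v (hlt v)
    rcases hcases v w hw with h1 | h1
    · exact a4 w h1
    · obtain ⟨b1, b2⟩ := a5 w h1
      rw [b1, b2, (hh w (hlt w)).1 _ (hg1 v w h1).1]
      omega
  · exact (hh v (hlt v)).2.2.2.2.2.1

end Pool.Agent.Q251.DA
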