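import Mathlib

/-! # A family of sets with many systems of distinct representatives -/

set_option autoImplicit false

namespace Pool.Agent.Q251.DA

open Finset

section count

variable {Λ : Type} [Fintype Λ] [DecidableEq Λ] {m s : ℕ}

/-- The values of `φ l`. -/
def rg (φ : Λ → Fin s → Fin m) (l : Λ) : Finset (Fin m) := univ.image (φ l)

omit [Fintype Λ] [DecidableEq Λ] in
theorem rg_card (φ : Λ → Fin s → Fin m) (l : Λ) : (rg φ l).card ≤ s := by
  unfold rg
  exact card_image_le.trans (by simp)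

/-- The bad event. -/
def bad (l0 : Λ) (I : Finset Λ) (U : Finset (Fin m)) : Finset (Λ → Fin s → Fin m) :=
  univ.filter fun φ => ∀ l ∈ I, ∀ x, φ l x ∈ U ∪ rg φ l0

theorem bad_card (l0 : Λ) (I : Finset Λ) (hI : l0 ∉ I) (U : Finset (Fin m)) (A : ℕ)
    (hA : (U.card + s) ^ s ≤ A) :
    (bad (s := s) l0 I U).card * (m ^ s) ^ I.card ≤
      (m ^ s) ^ Fintype.card Λ * A ^ I.card := by
  classical
  rcases Nat.eq_zero_or_pos (m ^ s) with hM | hM
  · rcases Nat.eq_zero_or_pos (Fintype.card Λ) with hK | hK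
    · exact absurd (Fintype.card_pos_iff.2 ⟨l0⟩) (by omega)
    · -- there are no functions at all
      have h0 : Fintype.card (Λ → Fin s → Fin m) = 0 := by
        rw [Fintype.card_fun, Fintype.card_fun, Fintype.card_fin, Fintype.card_fin, hM,
          zero_pow (by omega)]
      have h1 : (bad (s := s) l0 I U).card = 0 := by
        have := card_le_univ (bad (s := s) l0 I U)
        omega
      rw [h1, zero_mul]
      exact Nat.zero_le _
  -- decompose according to `φ l0`
  have h1 : (bad (s := s) l0 I U).card =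
      ∑ ψ : Fin s → Fin m, ((bad l0 I U).filter fun φ => φ l0 = ψ).card :=
    card_eq_sum_card_fiberwise (fun _ _ => mem_coe.2 (mem_univ _))
  have h2 : ∀ ψ : Fin s → Fin m, ((bad l0 I U).filter fun φ => φ l0 = ψ).card *
      (m ^ s) ^ (I.card + 1) ≤ (m ^ s) ^ Fintype.card Λ * A ^ I.card := by
    intro ψ
    set W : Finset (Fin m) := U ∪ univ.image ψ with hW
    have h3 : (bad l0 I U).filter (fun φ => φ l0 = ψ) ⊆ Fintype.piFinset (fun l =>
        if l = l0 then {ψ} else if l ∈ I then Fintype.piFinset (fun _ => W) else univ) := by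
      intro φ hφ
      obtain ⟨h4, h5⟩ := mem_filter.1 hφ
      have h6 := (mem_filter.1 h4).2
      rw [Fintype.mem_piFinset]
      intro l
      by_cases hl : l = l0
      · rw [if_pos hl, hl, h5]
        exact mem_singleton_self _
      · rw [if_neg hl]
        by_cases hlI : l ∈ I
        · rw [if_pos hlI, Fintype.mem_piFinset]
          intro x
          have := h6 l hlI x
          unfold rg at this
          rw [h5] at this
          exact this
        · rw [if_neg hlI]
          exact mem_univ _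
    have h7 := card_le_card h3
    rw [Fintype.card_piFinset] at h7
    have hWc : W.card ^ s ≤ A := by
      refine le_trans (Nat.pow_le_pow_left ?_ s) hA
      refine (card_union_le _ _).trans (Nat.add_le_add_left ?_ _)
      exact card_image_le.trans (by simp)
    have h8 : ∀ l, (if l = l0 then {ψ} else if l ∈ I then Fintype.piFinset (fun _ => W)
        else univ : Finset (Fin s → Fin m)).card * (if l = l0 then m ^ s else
          if l ∈ I then m ^ s else 1) ≤ m ^ s * (if l ∈ I then A else 1) := by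
      intro l
      by_cases hl : l = l0
      · have hlI : l ∉ I := hl ▸ hI
        rw [if_pos hl, if_pos hl, if_neg hlI, card_singleton, one_mul, mul_one]
      · rw [if_neg hl, if_neg hl]
        by_cases hlI : l ∈ I
        · rw [if_pos hlI, if_pos hlI, if_pos hlI, Fintype.card_piFinset, prod_const, card_univ,
            Fintype.card_fin, mul_comm]
          exact Nat.mul_le_mul_left _ hWc
        · rw [if_neg hlI, if_neg hlI, if_neg hlI, card_univ, Fintype.card_fun, Fintype.card_fin,
            Fintype.card_fin]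
    have h9 := Finset.prod_le_prod' (s := univ) (fun l _ => h8 l)
    rw [prod_mul_distrib, prod_mul_distrib, prod_const, card_univ] at h9
    have h10 : ∏ l : Λ, (if l = l0 then m ^ s else if l ∈ I then m ^ s else 1) =
        (m ^ s) ^ (I.card + 1) := by
      have h11 : ∀ l : Λ, (if l = l0 then m ^ s else if l ∈ I then m ^ s else 1) =
          if l ∈ insert l0 I then m ^ s else 1 := by
        intro l
        by_cases hl : l = l0
        · rw [if_pos hl, if_pos (by rw [hl]; exact mem_insert_self _ _)]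
        · rw [if_neg hl]
          by_cases hlI : l ∈ I
          · rw [if_pos hlI, if_pos (mem_insert_of_mem hlI)]
          · rw [if_neg hlI, if_neg (by simp [hl, hlI])]
      simp only [h11]
      rw [prod_ite_mem, univ_inter, prod_const, card_insert_of_notMem hI]
    have h12 : ∏ l : Λ, (if l ∈ I then A else 1) = A ^ I.card := by
      rw [prod_ite_mem, univ_inter, prod_const]
    rw [h10, h12] at h9
    exact (Nat.mul_le_mul_right _ h7).trans h9
  have h3 : (bad (s := s) l0 I U).card * (m ^ s) ^ (I.card + 1) ≤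
      m ^ s * ((m ^ s) ^ Fintype.card Λ * A ^ I.card) := by
    rw [h1, sum_mul]
    refine (sum_le_sum fun ψ _ => h2 ψ).trans ?_
    rw [sum_const, card_univ, Fintype.card_fun, Fintype.card_fin, Fintype.card_fin, smul_eq_mul]
  rw [pow_succ, ← mul_assoc, mul_comm (m ^ s) ((m ^ s) ^ Fintype.card Λ * A ^ I.card)] at h3
  exact Nat.le_of_mul_le_mul_right h3 hM

theorem exists_cover (hm : 0 < m) (n : ℕ) (U : Finset (Fin m)) (hU : U.card ≤ n) :
    ∃ f : Fin n → Fin m, U ⊆ univ.image f := by
  refine ⟨fun t => U.toList.getD t ⟨0, hm⟩, fun x hx => ?_⟩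
  obtain ⟨i, hi, hix⟩ := List.mem_iff_getElem.1 (mem_toList.2 hx)
  have hi' : i < n := by
    rw [length_toList] at hi
    omega
  refine mem_image.2 ⟨⟨i, hi'⟩, mem_univ _, ?_⟩
  show U.toList.getD i _ = x
  rw [List.getD_eq_getElem _ _ hi, hix]

theorem bad_mono (l0 : Λ) (I : Finset Λ) {U U' : Finset (Fin m)} (h : U ⊆ U') :
    bad (s := s) l0 I U ⊆ bad l0 I U' := by
  intro φ hφ
  refine mem_filter.2 ⟨mem_univ _, fun l hl x => ?_⟩
  have := (mem_filter.1 hφ).2 l hl x
  rcases mem_union.1 this with h1 | h1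
  · exact mem_union_left _ (h h1)
  · exact mem_union_right _ h1

/-- All bad events with `i` sets. -/
def Bad (i : ℕ) : Finset (Λ → Fin s → Fin m) :=
  (univ : Finset (Λ × (Fin i → Λ) × (Fin (i - 1) → Fin m))).biUnion fun p =>
    if p.1 ∉ univ.image p.2.1 ∧ (univ.image p.2.1).card = i then
      bad p.1 (univ.image p.2.1) (univ.image p.2.2) else ∅

theorem Bad_card (i k : ℕ) (hi : 1 ≤ i) (hik : i ≤ k) (hm : 0 < m)
    (hnum : 2 * (Fintype.card Λ ^ 2 * m * (k - 1 + s) ^ s) ≤ m ^ s) :
    2 ^ i * (Bad (Λ := Λ) (s := s) (m := m) i).card ≤ (m ^ s) ^ Fintype.card Λ := by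
  set K := Fintype.card Λ with hK
  set M := m ^ s with hM
  set A := (k - 1 + s) ^ s with hA
  have hMpos : 0 < M := Nat.pow_pos hm
  have h1 : (Bad (Λ := Λ) (s := s) (m := m) i).card * M ^ i ≤
      (K * K ^ i * m ^ (i - 1)) * (M ^ K * A ^ i) := by
    unfold Bad
    refine (Nat.mul_le_mul_right _ card_biUnion_le).trans ?_
    rw [sum_mul]
    have h2 : ∀ p : Λ × (Fin i → Λ) × (Fin (i - 1) → Fin m),
        (if p.1 ∉ univ.image p.2.1 ∧ (univ.image p.2.1).card = i then
          bad p.1 (univ.image p.2.1) (univ.image p.2.2) else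
            (∅ : Finset (Λ → Fin s → Fin m))).card * M ^ i ≤ M ^ K * A ^ i := by
      intro p
      split_ifs with h
      · have h3 := bad_card (s := s) p.1 (univ.image p.2.1) h.1 (univ.image p.2.2) A (by
          rw [hA]
          refine Nat.pow_le_pow_left ?_ s
          have : (univ.image p.2.2).card ≤ i - 1 := card_image_le.trans (by simp)
          omega)
        rw [h.2] at h3
        exact h3
      · rw [card_empty, zero_mul]
        exact Nat.zero_le _
    refine (sum_le_sum fun p _ => h2 p).trans ?_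
    rw [sum_const, card_univ, smul_eq_mul, Fintype.card_prod, Fintype.card_prod, Fintype.card_fun,
      Fintype.card_fun, Fintype.card_fin, Fintype.card_fin, Fintype.card_fin, ← mul_assoc K]
  have hK1 : 1 ≤ K ∨ (Bad (Λ := Λ) (s := s) (m := m) i).card = 0 := by
    rcases Nat.eq_zero_or_pos K with h0 | h0
    · right
      unfold Bad
      rw [card_eq_zero]
      have : IsEmpty Λ := Fintype.card_eq_zero_iff.1 h0
      have : IsEmpty (Λ × (Fin i → Λ) × (Fin (i - 1) → Fin m)) := inferInstance
      rw [univ_eq_empty, biUnion_empty]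
    · exact Or.inl h0
  rcases hK1 with hK1 | h0
  swap
  · rw [h0, mul_zero]
    exact Nat.zero_le _
  have h2 : 2 ^ i * (K * K ^ i * m ^ (i - 1) * A ^ i) ≤ M ^ i := by
    have h3 : 2 ^ i * (K * K ^ i * m ^ (i - 1) * A ^ i) ≤ (2 * (K ^ 2 * m * A)) ^ i := by
      rw [mul_pow, mul_pow, mul_pow]
      refine Nat.mul_le_mul_left _ (Nat.mul_le_mul_right _ (Nat.mul_le_mul ?_ ?_))
      · rw [← pow_succ', ← pow_mul]
        exact Nat.pow_le_pow_right hK1 (by omega)
      · exact Nat.pow_le_pow_right hm (by omega)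
    exact h3.trans (Nat.pow_le_pow_left hnum i)
  have h3 : 2 ^ i * (Bad (Λ := Λ) (s := s) (m := m) i).card * M ^ i ≤ M ^ K * M ^ i := by
    calc 2 ^ i * (Bad (Λ := Λ) (s := s) (m := m) i).card * M ^ i
        = 2 ^ i * ((Bad (Λ := Λ) (s := s) (m := m) i).card * M ^ i) := by rw [mul_assoc]
      _ ≤ 2 ^ i * ((K * K ^ i * m ^ (i - 1)) * (M ^ K * A ^ i)) := Nat.mul_le_mul_left _ h1
      _ = M ^ K * (2 ^ i * (K * K ^ i * m ^ (i - 1) * A ^ i)) := by ring
      _ ≤ M ^ K * M ^ i := Nat.mul_le_mul_left _ h2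
  exact Nat.le_of_mul_le_mul_right h3 (Nat.pow_pos hMpos)

theorem geom (a : ℕ → ℕ) (N : ℕ) (k : ℕ) (h : ∀ i, 1 ≤ i → i ≤ k → 2 ^ i * a i ≤ N) :
    2 ^ k * ∑ i ∈ Finset.Icc 1 k, a i + N ≤ 2 ^ k * N := by
  induction k with
  | zero => simp
  | succ k ih =>
    have h1 := ih fun i hi hik => h i hi (by omega)
    rw [Finset.sum_Icc_succ_top (by omega)]
    have h2 := h (k + 1) (by omega) le_rfl
    rw [pow_succ] at h2 ⊢
    calc 2 ^ k * 2 * (∑ i ∈ Icc 1 k, a i + a (k + 1)) + N
        = 2 * (2 ^ k * ∑ i ∈ Icc 1 k, a i) + 2 ^ k * 2 * a (k + 1) + N := by ring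
      _ ≤ 2 * (2 ^ k * ∑ i ∈ Icc 1 k, a i) + N + N := by omega
      _ ≤ 2 ^ k * 2 * N := by nlinarith

/-- Existence of the family. -/
theorem exists_family (k : ℕ) (hm : 0 < m)
    (hnum : 2 * (Fintype.card Λ ^ 2 * m * (k - 1 + s) ^ s) ≤ m ^ s) :
    ∃ R : Λ → Finset (Fin m), (∀ l, (R l).card ≤ s) ∧
      ∀ (l0 : Λ) (I : Finset Λ) (U : Finset (Fin m)), l0 ∉ I → I.card ≤ k → U.card < I.card →
        ∃ l ∈ I, ¬ R l ⊆ U ∪ R l0 := by
  classical
  set N := (m ^ s) ^ Fintype.card Λ with hN
  have hNpos : 0 < N := Nat.pow_pos (Nat.pow_pos hm)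
  have h1 := geom (fun i => (Bad (Λ := Λ) (s := s) (m := m) i).card) N k
    (fun i hi hik => Bad_card i k hi hik hm hnum)
  have h2 : ((Icc 1 k).biUnion fun i => Bad (Λ := Λ) (s := s) (m := m) i).card < N := by
    refine lt_of_le_of_lt card_biUnion_le ?_
    have h3 : 0 < 2 ^ k := Nat.pow_pos (by norm_num)
    by_contra hcon
    push Not at hcon
    have := Nat.mul_le_mul_left (2 ^ k) hcon
    omega
  have h3 : Fintype.card (Λ → Fin s → Fin m) = N := by
    rw [Fintype.card_fun, Fintype.card_fun, Fintype.card_fin, Fintype.card_fin]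
  obtain ⟨φ, hφ⟩ : ∃ φ : Λ → Fin s → Fin m,
      φ ∉ (Icc 1 k).biUnion fun i => Bad (Λ := Λ) (s := s) (m := m) i := by
    by_contra hcon
    push Not at hcon
    have : (Icc 1 k).biUnion (fun i => Bad (Λ := Λ) (s := s) (m := m) i) = univ :=
      eq_univ_iff_forall.2 hcon
    rw [this, card_univ, h3] at h2
    omega
  refine ⟨rg φ, rg_card φ, fun l0 I U hl0 hIk hUI => ?_⟩
  by_contra hcon
  push Not at hcon
  apply hφ
  refine mem_biUnion.2 ⟨I.card, mem_Icc.2 ⟨by omega, hIk⟩, ?_⟩
  unfold Bad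
  obtain ⟨g, hg⟩ := exists_cover hm (I.card - 1) U (by omega)
  let f : Fin I.card → Λ := fun t => (I.equivFin.symm t : Λ)
  have hf : univ.image f = I := by
    ext l
    constructor
    · intro hl
      obtain ⟨t, -, rfl⟩ := mem_image.1 hl
      exact (I.equivFin.symm t).2
    · intro hl
      refine mem_image.2 ⟨I.equivFin ⟨l, hl⟩, mem_univ _, ?_⟩
      show ((I.equivFin.symm (I.equivFin ⟨l, hl⟩)) : Λ) = l
      rw [Equiv.symm_apply_apply]
  refine mem_biUnion.2 ⟨(l0, f, g), mem_univ _, ?_⟩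
  show φ ∈ if l0 ∉ univ.image f ∧ (univ.image f).card = I.card then
      bad l0 (univ.image f) (univ.image g) else ∅
  rw [hf, if_pos ⟨hl0, rfl⟩]
  refine bad_mono l0 I hg (mem_filter.2 ⟨mem_univ _, fun l hl x => ?_⟩)
  exact hcon l hl (mem_image.2 ⟨x, mem_univ _, rfl⟩)

end count

end Pool.Agent.Q251.DA
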