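import Pool.Agent.Q251.DA.Adapt
import Pool.Agent.TH87.BD.Basic

/-! # From the heights to the forests -/

set_option autoImplicit false

namespace Pool.Agent.Q251.DA

open Finset SimpleGraph

/-- Distances in a forest given by a parent function and a height function. -/
theorem dist_of_height {V : Type} {H : SimpleGraph V} (p : V → Option V) (h : V → ℕ) (N : ℕ)
    (hle : ∀ x, h x ≤ N) (hdec : ∀ x y, p x = some y → h y < h x)
    (hH : ∀ x y, H.Adj x y → p x = some y ∨ p y = some x)
    (hp : ∀ x y, p x = some y → H.Adj x y) (u v : V) (huv : H.Reachable u v) :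
    H.dist u v ≤ 2 * N := by
  classical
  let st : V → V := fun x => (p x).getD x
  have hst0 : ∀ x, p x = none → st x = x := fun x hx => by simp [st, hx]
  have hst1 : ∀ x y, p x = some y → st x = y := fun x y hx => by simp [st, hx]
  have hwalk : ∀ n x, ∃ w : H.Walk x (st^[n] x), w.length ≤ n := by
    intro n
    induction n with
    | zero => exact fun x => ⟨Walk.nil, le_rfl⟩
    | succ n ih =>
      intro x
      rcases hpx : p x with _ | y
      · have e : st^[n + 1] x = x := Function.iterate_fixed (hst0 x hpx) _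
        rw [e]
        exact ⟨Walk.nil, by simp⟩
      · obtain ⟨w, hw⟩ := ih y
        have e : st^[n + 1] x = st^[n] y := by
          rw [Function.iterate_succ_apply, hst1 x y hpx]
        rw [e]
        exact ⟨Walk.cons (hp x y hpx) w, by rw [Walk.length_cons]; omega⟩
  have hnone : ∀ n x, h x ≤ n → p (st^[n] x) = none := by
    intro n
    induction n with
    | zero =>
      intro x hx
      rcases hpx : p x with _ | y
      · exact hpx
      · have := hdec x y hpx
        omega
    | succ n ih =>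
      intro x hx
      rcases hpx : p x with _ | y
      · have e : st^[n + 1] x = x := Function.iterate_fixed (hst0 x hpx) _
        rw [e]
        exact hpx
      · rw [Function.iterate_succ_apply, hst1 x y hpx]
        have := hdec x y hpx
        exact ih y (by omega)
  have hstep : ∀ x y, p x = some y → st^[N] x = st^[N] y := by
    intro x y hxy
    have h1 : st^[N + 1] x = st^[N] y := by
      rw [Function.iterate_succ_apply, hst1 x y hxy]
    have h2 : st^[N + 1] x = st^[N] x := by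
      rw [Function.iterate_succ_apply', hst0 _ (hnone N x (hle x))]
    rw [← h1, h2]
  have hadj : ∀ x y, H.Adj x y → st^[N] x = st^[N] y := by
    intro x y hxy
    rcases hH x y hxy with h1 | h1
    · exact hstep x y h1
    · exact (hstep y x h1).symm
  have hreach : st^[N] u = st^[N] v := by
    obtain ⟨w⟩ := huv
    induction w with
    | nil => rfl
    | cons hxy _ ih => exact (hadj _ _ hxy).trans ih
  obtain ⟨w1, hw1⟩ := hwalk N u
  obtain ⟨w2, hw2⟩ := hwalk N v
  have h3 := dist_le (w1.append ((w2.copy rfl hreach.symm).reverse))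
  rw [Walk.length_append, Walk.length_reverse, Walk.length_copy] at h3
  omega

/-- The numerical condition. -/
theorem num (s k : ℕ) (hs : 62 ≤ s) (h1 : 8 * s ≤ k) (h2 : k ≤ 8 * s + 7) :
    2 * ((k ^ 2 + k + 1) ^ 2 * (2 * k - 1) * (k - 1 + s) ^ s) ≤ (2 * k - 1) ^ s := by
  have hpoly : ∀ t : ℕ, 2 * (((8 * (62 + t) + 7) ^ 2 + (8 * (62 + t) + 7) + 1) ^ 2 *
      (16 * (62 + t) + 13)) * 9 ^ (62 + t) ≤ 16 ^ (62 + t) := by
    intro t
    induction t with
    | zero => norm_num
    | succ t ih =>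
      have h3 : 9 * (2 * (((8 * (62 + (t + 1)) + 7) ^ 2 + (8 * (62 + (t + 1)) + 7) + 1) ^ 2 *
          (16 * (62 + (t + 1)) + 13))) ≤
          16 * (2 * (((8 * (62 + t) + 7) ^ 2 + (8 * (62 + t) + 7) + 1) ^ 2 *
          (16 * (62 + t) + 13))) := by
        ring_nf
        gcongr <;> norm_num
      have e9 : 9 ^ (62 + (t + 1)) = 9 * 9 ^ (62 + t) := by
        rw [← add_assoc, pow_succ, mul_comm]
      have e16 : 16 ^ (62 + (t + 1)) = 16 * 16 ^ (62 + t) := by
        rw [← add_assoc, pow_succ, mul_comm]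
      rw [e9, e16]
      generalize 2 * (((8 * (62 + (t + 1)) + 7) ^ 2 + (8 * (62 + (t + 1)) + 7) + 1) ^ 2 *
          (16 * (62 + (t + 1)) + 13)) = A at h3 ⊢
      generalize 2 * (((8 * (62 + t) + 7) ^ 2 + (8 * (62 + t) + 7) + 1) ^ 2 *
          (16 * (62 + t) + 13)) = B at h3 ih ⊢
      generalize 9 ^ (62 + t) = X at ih ⊢
      generalize 16 ^ (62 + t) = Y at ih ⊢
      calc A * (9 * X) = 9 * A * X := by ring
        _ ≤ 16 * B * X := Nat.mul_le_mul_right _ h3
        _ = 16 * (B * X) := by ring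
        _ ≤ 16 * Y := Nat.mul_le_mul_left _ ih
  obtain ⟨t, rfl⟩ := Nat.exists_eq_add_of_le hs
  have h3 : 2 * ((k ^ 2 + k + 1) ^ 2 * (2 * k - 1)) * 9 ^ (62 + t) ≤ 16 ^ (62 + t) := by
    refine le_trans ?_ (hpoly t)
    have h4 : 2 * k - 1 ≤ 16 * (62 + t) + 13 := by omega
    gcongr
  have h5 : 16 * (k - 1 + (62 + t)) ≤ 9 * (2 * k - 1) := by omega
  have h6 : 16 ^ (62 + t) * (k - 1 + (62 + t)) ^ (62 + t) ≤
      9 ^ (62 + t) * (2 * k - 1) ^ (62 + t) := by
    rw [← mul_pow, ← mul_pow]
    exact Nat.pow_le_pow_left h5 _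
  have h7 : 0 < 16 ^ (62 + t) := Nat.pow_pos (by norm_num)
  refine Nat.le_of_mul_le_mul_left ?_ h7
  clear h7 h5 hpoly h2 h1
  generalize (k ^ 2 + k + 1) ^ 2 * (2 * k - 1) = A at h3 ⊢
  generalize (k - 1 + (62 + t)) ^ (62 + t) = B at h6 ⊢
  generalize (2 * k - 1) ^ (62 + t) = C at h6 ⊢
  generalize 9 ^ (62 + t) = X at h3 h6 ⊢
  generalize 16 ^ (62 + t) = Y at h3 h6 ⊢
  calc Y * (2 * (A * B)) = 2 * A * (Y * B) := by ring
    _ ≤ 2 * A * (X * C) := Nat.mul_le_mul_left _ h6
    _ = 2 * A * X * C := by ring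
    _ ≤ Y * C := Nat.mul_le_mul_right _ h3

/-- `k` disjoint forests can be rearranged into `2k - 1` disjoint forests with distances at most
four inside each component. -/
theorem rearrange {V : Type} [Fintype V] (k : ℕ) (hk : 500 ≤ k) (F : Fin k → SimpleGraph V)
    (hF : ∀ i, (F i).IsAcyclic) (hdisj : ∀ i j x y, (F i).Adj x y → (F j).Adj x y → i = j) :
    ∃ H : Fin (2 * k - 1) → SimpleGraph V, (∀ c, (H c).IsAcyclic) ∧
      (∀ c c' x y, (H c).Adj x y → (H c').Adj x y → c = c') ∧
      (∀ x y, (∃ c, (H c).Adj x y) ↔ ∃ i, (F i).Adj x y) ∧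
      ∀ c u v, (H c).Reachable u v → (H c).dist u v ≤ 4 := by
  classical
  choose p lev hp1 _ hp2 using fun i => Pool.Agent.TH87.BD.exists_rooting (F i) (hF i)
  let N : V → Finset V := fun v => univ.biUnion fun i : Fin k => (p i v).toFinset
  have hNm : ∀ v w, w ∈ N v ↔ ∃ i, p i v = some w := by
    intro v w
    simp [N]
  have hNc : ∀ v, (N v).card ≤ k := by
    intro v
    refine card_biUnion_le.trans ?_
    calc ∑ i : Fin k, (p i v).toFinset.card ≤ ∑ _i : Fin k, 1 := by
          refine Finset.sum_le_sum fun i _ => ?_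
          cases p i v <;> simp
      _ = k := by simp
  have hNv : ∀ v, v ∉ N v := by
    intro v hv
    obtain ⟨i, hi⟩ := (hNm v v).1 hv
    exact (hp1 i v v hi).1.ne rfl
  have hNas : ∀ v w, w ∈ N v → v ∉ N w := by
    intro v w hw hv
    obtain ⟨i, hi⟩ := (hNm v w).1 hw
    obtain ⟨j, hj⟩ := (hNm w v).1 hv
    obtain ⟨a1, a2⟩ := hp1 i v w hi
    obtain ⟨b1, b2⟩ := hp1 j w v hj
    have hij : i = j := hdisj i j v w a1 b1.symm
    subst hij
    omega
  obtain ⟨h, col, hh2, hcol⟩ := core (V := V) (m := 2 * k - 1) (k := k) (s := k / 8)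
    (by omega) (by omega) (Fin (k ^ 2 + k + 1)) (by simp) (by
      rw [Fintype.card_fin]
      exact num (k / 8) k (by omega) (by omega) (by omega)) N hNc hNv
  let H : Fin (2 * k - 1) → SimpleGraph V := fun c =>
    { Adj := fun x y => (y ∈ N x ∧ col x y = c) ∨ (x ∈ N y ∧ col y x = c)
      symm := ⟨fun x y hxy => hxy.symm⟩
      loopless := ⟨fun x hx => by
        rcases hx with hx | hx
        · exact hNv x hx.1
        · exact hNv x hx.1⟩ }
  have hHadj : ∀ c x y, (H c).Adj x y ↔ (y ∈ N x ∧ col x y = c) ∨ (x ∈ N y ∧ col y x = c) :=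
    fun c x y => Iff.rfl
  let q : Fin (2 * k - 1) → V → Option V := fun c x =>
    if hx : ∃ y, y ∈ N x ∧ col x y = c then some hx.choose else none
  have hq : ∀ c x y, q c x = some y ↔ y ∈ N x ∧ col x y = c := by
    intro c x y
    by_cases hx : ∃ y, y ∈ N x ∧ col x y = c
    · have e : q c x = some hx.choose := dif_pos hx
      rw [e, Option.some.injEq]
      constructor
      · intro h1
        rw [← h1]
        exact hx.choose_spec
      · intro h1
        by_contra hne
        exact (hcol x).2 _ hx.choose_spec.1 _ h1.1 hne (hx.choose_spec.2.trans h1.2.symm)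
    · have e : q c x = none := dif_neg hx
      rw [e]
      exact ⟨fun h1 => absurd h1 (by simp), fun h1 => absurd ⟨y, h1⟩ hx⟩
  have hqH : ∀ c x y, (H c).Adj x y → q c x = some y ∨ q c y = some x := by
    intro c x y hxy
    rcases (hHadj c x y).1 hxy with h1 | h1
    · exact Or.inl ((hq c x y).2 h1)
    · exact Or.inr ((hq c y x).2 h1)
  have hqdec : ∀ c x y, q c x = some y → h y c < h x c := by
    intro c x y hxy
    obtain ⟨h1, h2⟩ := (hq c x y).1 hxy
    have := (hcol x).1 y h1
    rwa [h2] at this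
  refine ⟨H, fun c => ?_, ?_, ?_, ?_⟩
  · exact Pool.Agent.TH87.BD.acyclic_of_pot (q c) (fun x => OrderDual.toDual (h x c))
      (fun x y hxy => OrderDual.toDual_lt_toDual.2 (hqdec c x y hxy)) (hqH c)
  · intro c c' x y h1 h2
    rcases (hHadj c x y).1 h1 with ⟨a1, a2⟩ | ⟨a1, a2⟩ <;>
      rcases (hHadj c' x y).1 h2 with ⟨b1, b2⟩ | ⟨b1, b2⟩
    · exact a2.symm.trans b2
    · exact absurd b1 (hNas _ _ a1)
    · exact absurd b1 (hNas _ _ a1)
    · exact a2.symm.trans b2
  · intro x y
    constructor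
    · rintro ⟨c, hc⟩
      rcases (hHadj c x y).1 hc with ⟨a1, -⟩ | ⟨a1, -⟩
      · obtain ⟨i, hi⟩ := (hNm _ _).1 a1
        exact ⟨i, (hp1 i x y hi).1⟩
      · obtain ⟨i, hi⟩ := (hNm _ _).1 a1
        exact ⟨i, (hp1 i y x hi).1.symm⟩
    · rintro ⟨i, hi⟩
      rcases hp2 i x y hi with h1 | h1
      · exact ⟨col x y, (hHadj _ _ _).2 (Or.inl ⟨(hNm _ _).2 ⟨i, h1⟩, rfl⟩)⟩
      · exact ⟨col y x, (hHadj _ _ _).2 (Or.inr ⟨(hNm _ _).2 ⟨i, h1⟩, rfl⟩)⟩
  · intro c u v huv
    exact dist_of_height (q c) (fun x => h x c) 2 (fun x => hh2 x c) (hqdec c) (hqH c)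
      (fun x y hxy => (hHadj c x y).2 (Or.inl ((hq c x y).1 hxy))) u v huv

end Pool.Agent.Q251.DA
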